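import Pool.Agent.H586.AF.E

/-!
# Far region, magnetic part (helper231)
-/

set_option autoImplicit false
set_option linter.unusedVariables false

open MeasureTheory Matrix Finset Filter Topology
open scoped Matrix.Norms.Frobenius

namespace Pool.Agent.H231.AH

open Pool.Agent.H586.AF
open Pool.Agent.H586.AF.EE (HI S_IF)

/-- the dominating function -/
noncomputable def ff (x : ℝ) : ℝ := (1 + 1 / Real.sqrt x) * Real.exp (-(x / 2))

theorem ff_int : IntegrableOn ff (Set.Ioi 0) := by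
  have h1 : IntegrableOn (fun x : ℝ => x ^ (0 : ℝ) * Real.exp (-(1 / 2) * x ^ (1 : ℝ))) (Set.Ioi 0) :=
    integrableOn_rpow_mul_exp_neg_mul_rpow (by norm_num) (by norm_num) (by norm_num)
  have h2 : IntegrableOn (fun x : ℝ => x ^ (-(1 / 2) : ℝ) * Real.exp (-(1 / 2) * x ^ (1 : ℝ)))
      (Set.Ioi 0) :=
    integrableOn_rpow_mul_exp_neg_mul_rpow (by norm_num) (by norm_num) (by norm_num)
  refine (h1.add h2).congr_fun ?_ measurableSet_Ioi
  intro x hx
  have hx' : 0 < x := hx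
  simp only [Pi.add_apply, Real.rpow_zero, Real.rpow_one]
  unfold ff
  rw [Real.rpow_neg hx'.le, ← Real.sqrt_eq_rpow, show -(1 / 2 : ℝ) * x = -(x / 2) by ring]
  ring

theorem rpow32 {x : ℝ} (hx : 0 ≤ x) : x ^ (3 / 2 : ℝ) = Real.sqrt x ^ 3 := by
  rw [Real.sqrt_eq_rpow, ← Real.rpow_natCast, ← Real.rpow_mul hx]
  norm_num

/-- the constant -/
noncomputable def KK (C C0 ε : ℝ) : ℝ :=
  (2 * C + C0) * (C / Real.sqrt ε ^ 3 + C0) * (C / Real.sqrt ε + C0) * (2 * (C / Real.sqrt ε + C0))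

theorem bound {C C0 : ℝ} (hC : 1 ≤ C) (hC0 : 1 ≤ C0)
    (hH : ∀ t : ℝ, 0 ≤ t → 0 ≤ hh t ∧ hh t ≤ C / Real.sqrt (1 + t) ∧ 0 ≤ ww t ∧
      ww t ≤ C / (1 + t) ^ (3 / 2 : ℝ) ∧ 0 ≤ gg t ∧ gg t ≤ C / Real.sqrt (1 + t))
    {L : ℕ} (hL : 2 ≤ L) {a b : ℝ → ℝ → ℝ} {c d : ℝ → ℝ} (h : HI C0 L a b c d) {ε : ℝ}
    (hε : 0 < ε) {t s : ℝ} (ht : 0 < t) (hs : 0 < s) (hts : ε < t + s) :
    |a ((L : ℝ) ^ 2 * t) ((L : ℝ) ^ 2 * s) / (L : ℝ) ^ 2 *
      ((L : ℝ) ^ 2 * b ((L : ℝ) ^ 2 * t) ((L : ℝ) ^ 2 * s)) *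
      c ((L : ℝ) ^ 2 * (t + s)) * d ((L : ℝ) ^ 2 * (t + s))| ≤ KK C C0 ε * (ff t * ff s) := by
  have hL0 : (0 : ℝ) < L := by
    have : 0 < L := by omega
    exact_mod_cast this
  have hL1 : (1 : ℝ) ≤ L := by
    have : 1 ≤ L := by omega
    exact_mod_cast this
  have hLL : (0 : ℝ) < (L : ℝ) ^ 2 := by positivity
  obtain ⟨T, hT⟩ : ∃ T, T = (L : ℝ) ^ 2 * t := ⟨_, rfl⟩
  obtain ⟨S, hS⟩ : ∃ S, S = (L : ℝ) ^ 2 * s := ⟨_, rfl⟩
  obtain ⟨τ, hτ⟩ : ∃ τ, τ = (L : ℝ) ^ 2 * (t + s) := ⟨_, rfl⟩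
  have hT0 : 0 < T := by rw [hT]; positivity
  have hS0 : 0 < S := by rw [hS]; positivity
  have hTS : T + S = τ := by rw [hT, hS, hτ]; ring
  have hτ0 : 0 < τ := by linarith
  rw [← hT, ← hS, ← hτ]
  obtain ⟨e, he⟩ : ∃ e, e = Real.sqrt ε := ⟨_, rfl⟩
  have he0 : 0 < e := by rw [he]; exact Real.sqrt_pos.2 hε
  obtain ⟨r, hr⟩ : ∃ r, r = Real.sqrt (1 + τ) := ⟨_, rfl⟩
  have hr2 : r ^ 2 = 1 + τ := by rw [hr]; exact Real.sq_sqrt (by linarith)
  have hr0 : 0 < r := by rw [hr]; exact Real.sqrt_pos.2 (by linarith)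
  have hre : (L : ℝ) * e ≤ r := by
    have h1 : Real.sqrt ((L : ℝ) ^ 2 * ε) = L * e := by
      rw [Real.sqrt_mul hLL.le, Real.sqrt_sq hL0.le, he]
    rw [← h1, hr]
    apply Real.sqrt_le_sqrt
    have := mul_le_mul_of_nonneg_left hts.le hLL.le
    rw [hτ]
    linarith
  obtain ⟨hh0, hh1, hw0, hw1, -, -⟩ := hH τ hτ0.le
  rw [rpow32 (by linarith), ← hr] at hw1
  rw [← hr] at hh1
  -- `L hh ≤ C / e`
  have hLh : (L : ℝ) * hh τ ≤ C / e := by
    calc (L : ℝ) * hh τ ≤ L * (C / r) := by gcongr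
      _ ≤ L * (C / (L * e)) := by gcongr
      _ = C / e := by field_simp
  have hLw : (L : ℝ) ^ 2 * (L * ww τ) ≤ C / e ^ 3 := by
    calc (L : ℝ) ^ 2 * (L * ww τ) ≤ (L : ℝ) ^ 2 * (L * (C / r ^ 3)) := by gcongr
      _ ≤ (L : ℝ) ^ 2 * (L * (C / (L * e) ^ 3)) := by gcongr
      _ = C / e ^ 3 := by field_simp
  have hCe : 0 ≤ C / e := by positivity
  have hc : |c τ| ≤ C / e + C0 := by
    have h1 := h.tr.hc τ hτ0.le
    have h2 := abs_le.1 h1
    have h3 : 0 ≤ (L : ℝ) * hh τ := by positivity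
    rw [abs_le]
    constructor <;> linarith
  have hd : |d τ| ≤ 2 * (C / e + C0) * Real.exp (-((t + s) / 2)) := by
    rcases le_or_gt ((L : ℝ) ^ 2) τ with h4 | h4
    · have h1 := h.tr.ld τ h4
      have h5 : -(τ / (2 * (L : ℝ) ^ 2)) = -((t + s) / 2) := by
        rw [hτ]
        field_simp
      rw [h5] at h1
      refine h1.trans ?_
      exact mul_le_mul_of_nonneg_right (by linarith) (Real.exp_pos (-((t + s) / 2))).le
    · have h1 := h.tr.hd τ hτ0.le
      have h2 := abs_le.1 h1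
      have h3 : 0 ≤ (L : ℝ) * hh τ := by positivity
      have h5 : |d τ| ≤ C / e + C0 := by
        rw [abs_le]
        constructor <;> linarith
      have h6 : t + s < 1 := by
        rw [hτ] at h4
        by_contra hcon
        push Not at hcon
        have := mul_le_mul_of_nonneg_left hcon hLL.le
        linarith
      have h7 : (1 : ℝ) ≤ 2 * Real.exp (-((t + s) / 2)) := by
        have := Real.add_one_le_exp (-((t + s) / 2))
        linarith
      calc |d τ| ≤ (C / e + C0) * 1 := by rw [mul_one]; exact h5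
        _ ≤ (C / e + C0) * (2 * Real.exp (-((t + s) / 2))) :=
            mul_le_mul_of_nonneg_left h7 (by linarith)
        _ = 2 * (C / e + C0) * Real.exp (-((t + s) / 2)) := by ring
  have ha : |a T S / (L : ℝ) ^ 2| ≤ 2 * C + C0 := by
    rw [abs_div, abs_of_pos hLL, div_le_iff₀ hLL]
    rcases le_or_gt ((L : ℝ) ^ 2) (T + S) with h4 | h4
    · have h1 := h.la T S hT0.le hS0.le h4
      exact h1.trans (mul_le_mul_of_nonneg_right (by linarith) hLL.le)
    · have h1 := h.ha T S hT0.le hS0.le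
      rw [hTS] at h1 h4
      have h2 : T * S ≤ r ^ 4 := by
        have : r ^ 4 = (1 + τ) ^ 2 := by rw [← hr2]; ring
        rw [this]
        calc T * S ≤ (1 + τ) * (1 + τ) :=
              mul_le_mul (by linarith) (by linarith) hS0.le (by linarith)
          _ = (1 + τ) ^ 2 := by ring
      have h3 : r ≤ 2 * L := by
        have : r ^ 2 ≤ (2 * L) ^ 2 := by
          rw [hr2]
          have h20 : (1 : ℝ) ≤ (L : ℝ) ^ 2 := one_le_pow₀ hL1
          have h21 : (2 * (L : ℝ)) ^ 2 = 4 * (L : ℝ) ^ 2 := by ring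
          linarith
        exact (sq_le_sq₀ hr0.le (by positivity)).1 this
      have h5 : (L : ℝ) * (T * S * ww τ) ≤ 2 * C * (L : ℝ) ^ 2 := by
        calc (L : ℝ) * (T * S * ww τ) ≤ L * (r ^ 4 * (C / r ^ 3)) := by gcongr
          _ = L * C * r := by field_simp
          _ ≤ L * C * (2 * L) := by gcongr
          _ = 2 * C * (L : ℝ) ^ 2 := by ring
      have h6 : Real.sqrt (T * S) ≤ (L : ℝ) ^ 2 := by
        rw [Real.sqrt_le_left (by positivity)]
        calc T * S ≤ (L : ℝ) ^ 2 * (L : ℝ) ^ 2 :=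
              mul_le_mul (by linarith) (by linarith) hS0.le hLL.le
          _ = ((L : ℝ) ^ 2) ^ 2 := by ring
      have h7 : 0 ≤ (L : ℝ) * (T * S * ww τ) := by positivity
      have h8 := abs_le.1 h1
      have h9 : C0 * Real.sqrt (T * S) ≤ C0 * (L : ℝ) ^ 2 :=
        mul_le_mul_of_nonneg_left h6 (by linarith)
      have h10 : (2 * C + C0) * (L : ℝ) ^ 2 = 2 * C * (L : ℝ) ^ 2 + C0 * (L : ℝ) ^ 2 := by ring
      have h11 : 0 ≤ 2 * C * (L : ℝ) ^ 2 := by positivity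
      rw [h10, abs_le]
      constructor <;> linarith
  have hb : |(L : ℝ) ^ 2 * b T S| ≤
      (C / e ^ 3 + C0) * ((1 + 1 / Real.sqrt t) * (1 + 1 / Real.sqrt s)) := by
    rw [abs_mul, abs_of_pos hLL]
    have h1 := h.hb T S hT0.le hS0.le
    rw [hTS] at h1
    have key : ∀ x : ℝ, 0 < x → 1 / Real.sqrt (1 + (L : ℝ) ^ 2 * x) + 1 / L ≤
        1 / L * (1 + 1 / Real.sqrt x) := by
      intro x hx
      have h3 : (L : ℝ) * Real.sqrt x ≤ Real.sqrt (1 + (L : ℝ) ^ 2 * x) := by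
        have h4 : Real.sqrt ((L : ℝ) ^ 2 * x) = L * Real.sqrt x := by
          rw [Real.sqrt_mul hLL.le, Real.sqrt_sq hL0.le]
        rw [← h4]
        apply Real.sqrt_le_sqrt
        linarith
      have h5 : 0 < Real.sqrt x := Real.sqrt_pos.2 hx
      have h6 : 1 / Real.sqrt (1 + (L : ℝ) ^ 2 * x) ≤ 1 / (L * Real.sqrt x) :=
        one_div_le_one_div_of_le (by positivity) h3
      have h7 : 1 / (L * Real.sqrt x) = 1 / L * (1 / Real.sqrt x) := by
        field_simp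
      rw [h7] at h6
      rw [mul_add, mul_one]
      linarith
    have k1 := key t ht
    have k2 := key s hs
    rw [← hT] at k1
    rw [← hS] at k2
    obtain ⟨u, hu⟩ : ∃ u, u = 1 + 1 / Real.sqrt t := ⟨_, rfl⟩
    obtain ⟨v, hv⟩ : ∃ v, v = 1 + 1 / Real.sqrt s := ⟨_, rfl⟩
    rw [← hu] at k1 ⊢
    rw [← hv] at k2 ⊢
    have hu1 : 1 ≤ u := by
      rw [hu]
      have : 0 ≤ 1 / Real.sqrt t := by positivity
      linarith
    have hv1 : 1 ≤ v := by
      rw [hv]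
      have : 0 ≤ 1 / Real.sqrt s := by positivity
      linarith
    have h9 : C0 * (1 / Real.sqrt (1 + T) + 1 / L) * (1 / Real.sqrt (1 + S) + 1 / L) ≤
        C0 * (1 / L * u) * (1 / L * v) := by gcongr
    have h10 : |b T S| ≤ L * ww τ + C0 * (1 / L * u) * (1 / L * v) := by
      have h2 := abs_le.1 (h1.trans h9)
      have h3 : 0 ≤ (L : ℝ) * ww τ := by positivity
      rw [abs_le]
      constructor <;> linarith
    calc (L : ℝ) ^ 2 * |b T S| ≤ (L : ℝ) ^ 2 * (L * ww τ + C0 * (1 / L * u) * (1 / L * v)) := by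
          gcongr
      _ = (L : ℝ) ^ 2 * (L * ww τ) + C0 * (u * v) := by
          field_simp
      _ ≤ C / e ^ 3 * (u * v) + C0 * (u * v) := by
          have h11 : 1 ≤ u * v := one_le_mul_of_one_le_of_one_le hu1 hv1
          have h12 : 0 ≤ C / e ^ 3 := by positivity
          have h13 := hLw.trans (le_mul_of_one_le_right h12 h11)
          linarith
      _ = (C / e ^ 3 + C0) * (u * v) := by ring
  rw [abs_mul, abs_mul, abs_mul]
  have hu0 : 0 ≤ (1 + 1 / Real.sqrt t) * (1 + 1 / Real.sqrt s) := by positivity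
  calc |a T S / (L : ℝ) ^ 2| * |(L : ℝ) ^ 2 * b T S| * |c τ| * |d τ| ≤
      (2 * C + C0) * ((C / e ^ 3 + C0) * ((1 + 1 / Real.sqrt t) * (1 + 1 / Real.sqrt s))) *
        (C / e + C0) * (2 * (C / e + C0) * Real.exp (-((t + s) / 2))) := by gcongr
    _ = KK C C0 ε * (ff t * ff s) := by
        unfold KK ff
        rw [← he, show -((t + s) / 2) = -(t / 2) + -(s / 2) by ring, Real.exp_add]
        ring

theorem tif (hH : S_H) : S_IF := by
  obtain ⟨C, hC, -, hHb, -⟩ := hH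
  intro C0 hC0 a b c d hI hab hcd ε hε
  obtain ⟨G, hGdef⟩ : ∃ G : ℕ → ℝ → ℝ → ℝ, G = fun L t s => if t + s ≤ ε then 0 else
    a L ((L : ℝ) ^ 2 * t) ((L : ℝ) ^ 2 * s) / (L : ℝ) ^ 2 *
      ((L : ℝ) ^ 2 * b L ((L : ℝ) ^ 2 * t) ((L : ℝ) ^ 2 * s)) *
      c L ((L : ℝ) ^ 2 * (t + s)) * d L ((L : ℝ) ^ 2 * (t + s)) := ⟨_, rfl⟩
  have hsub : ∀ (B : ℝ), 0 < B → ∀ f : ℝ → ℝ,
      ∫ x in Set.Ioi (0 : ℝ), f x = B * ∫ x in Set.Ioi (0 : ℝ), f (B * x) := by
    intro B hB f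
    rw [integral_comp_mul_left_Ioi f 0 hB, mul_zero, smul_eq_mul, ← mul_assoc,
      mul_inv_cancel₀ hB.ne', one_mul]
  have hG : ∀ L : ℕ, 2 ≤ L → (∫ t in Set.Ioi (0 : ℝ), ∫ s in Set.Ioi (0 : ℝ),
      if t + s ≤ ε * (L : ℝ) ^ 2 then 0 else a L t s * b L t s * c L (t + s) * d L (t + s)) /
        (L : ℝ) ^ 4 = ∫ t in Set.Ioi (0 : ℝ), ∫ s in Set.Ioi (0 : ℝ), G L t s := by
    intro L hL
    have hL0 : (0 : ℝ) < L := by
      have : 0 < L := by omega
      exact_mod_cast this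
    have hLL : (0 : ℝ) < (L : ℝ) ^ 2 := by positivity
    rw [hsub _ hLL]
    have h1 : ∀ t : ℝ, (∫ s in Set.Ioi (0 : ℝ), if (L : ℝ) ^ 2 * t + s ≤ ε * (L : ℝ) ^ 2 then 0 else
        a L ((L : ℝ) ^ 2 * t) s * b L ((L : ℝ) ^ 2 * t) s * c L ((L : ℝ) ^ 2 * t + s) *
          d L ((L : ℝ) ^ 2 * t + s)) = (L : ℝ) ^ 2 * ∫ s in Set.Ioi (0 : ℝ), G L t s := by
      intro t
      rw [hsub _ hLL]
      congr 2
      funext s
      rw [hGdef]
      have e1 : (L : ℝ) ^ 2 * t + (L : ℝ) ^ 2 * s = (L : ℝ) ^ 2 * (t + s) := by ring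
      have e2 : (L : ℝ) ^ 2 * (t + s) ≤ ε * (L : ℝ) ^ 2 ↔ t + s ≤ ε := by
        rw [mul_comm ε]
        exact mul_le_mul_iff_right₀ hLL
      simp only [e1, e2]
      by_cases h : t + s ≤ ε
      · rw [if_pos h, if_pos h]
      · rw [if_neg h, if_neg h]
        field_simp
    simp only [h1]
    rw [integral_const_mul, div_eq_iff (by positivity)]
    ring
  have hmeas : ∀ L : ℕ, 2 ≤ L → Measurable (Function.uncurry (G L)) := by
    intro L hL
    have h := hI L hL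
    rw [hGdef]
    have e : (Function.uncurry fun t s => if t + s ≤ ε then (0 : ℝ) else
      a L ((L : ℝ) ^ 2 * t) ((L : ℝ) ^ 2 * s) / (L : ℝ) ^ 2 *
      ((L : ℝ) ^ 2 * b L ((L : ℝ) ^ 2 * t) ((L : ℝ) ^ 2 * s)) *
      c L ((L : ℝ) ^ 2 * (t + s)) * d L ((L : ℝ) ^ 2 * (t + s))) =
      fun p : ℝ × ℝ => if p.1 + p.2 ≤ ε then (0 : ℝ) else
      a L ((L : ℝ) ^ 2 * p.1) ((L : ℝ) ^ 2 * p.2) / (L : ℝ) ^ 2 *
      ((L : ℝ) ^ 2 * b L ((L : ℝ) ^ 2 * p.1) ((L : ℝ) ^ 2 * p.2)) *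
      c L ((L : ℝ) ^ 2 * (p.1 + p.2)) * d L ((L : ℝ) ^ 2 * (p.1 + p.2)) := by
      funext p
      rfl
    rw [e]
    have hg : Continuous fun p : ℝ × ℝ => ((L : ℝ) ^ 2 * p.1, (L : ℝ) ^ 2 * p.2) := by fun_prop
    have c1 : Continuous fun p : ℝ × ℝ => a L ((L : ℝ) ^ 2 * p.1) ((L : ℝ) ^ 2 * p.2) :=
      h.ca.comp hg
    have c2 : Continuous fun p : ℝ × ℝ => b L ((L : ℝ) ^ 2 * p.1) ((L : ℝ) ^ 2 * p.2) :=
      h.cb.comp hg
    have c3 : Continuous fun p : ℝ × ℝ => c L ((L : ℝ) ^ 2 * (p.1 + p.2)) :=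
      h.tr.cc.comp (by fun_prop)
    have c4 : Continuous fun p : ℝ × ℝ => d L ((L : ℝ) ^ 2 * (p.1 + p.2)) :=
      h.tr.cd.comp (by fun_prop)
    refine Measurable.ite (measurableSet_le (by fun_prop) measurable_const) measurable_const ?_
    exact ((((c1.div_const _).mul (continuous_const.mul c2)).mul c3).mul c4).measurable
  have hbd : ∀ L : ℕ, 2 ≤ L → ∀ t s : ℝ, 0 < t → 0 < s → |G L t s| ≤ KK C C0 ε * (ff t * ff s) := by
    intro L hL t s ht hs
    rw [hGdef]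
    simp only
    by_cases h : t + s ≤ ε
    · rw [if_pos h, abs_zero]
      have h1 : 0 < Real.sqrt ε := Real.sqrt_pos.2 hε
      unfold KK ff
      positivity
    · rw [if_neg h]
      exact bound hC hC0 hHb hL (hI L hL) hε ht hs (lt_of_not_ge h)
  have hlim : ∀ t s : ℝ, ∃ l, 0 < t → 0 < s → Tendsto (fun L => G L t s) atTop (𝓝 l) := by
    intro t s
    by_cases ht : 0 < t
    swap
    · exact ⟨0, fun h => absurd h ht⟩
    by_cases hs : 0 < s
    swap
    · exact ⟨0, fun _ h => absurd h hs⟩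
    by_cases h : t + s ≤ ε
    · refine ⟨0, fun _ _ => ?_⟩
      rw [hGdef]
      simp only [if_pos h]
      exact tendsto_const_nhds
    · obtain ⟨⟨l1, h1⟩, l2, h2⟩ := hab t s ht hs
      obtain ⟨⟨l3, h3⟩, l4, h4⟩ := hcd (t + s) (by linarith)
      refine ⟨l1 * l2 * l3 * l4, fun _ _ => ?_⟩
      rw [hGdef]
      simp only [if_neg h]
      exact ((h1.mul h2).mul h3).mul h4
  choose l hl using hlim
  have hinner : ∀ t : ℝ, 0 < t → Tendsto (fun L => ∫ s in Set.Ioi (0 : ℝ), G L t s) atTop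
      (𝓝 (∫ s in Set.Ioi (0 : ℝ), l t s)) := by
    intro t ht
    refine tendsto_integral_filter_of_dominated_convergence
      (fun s => KK C C0 ε * (ff t * ff s)) ?_ ?_ ?_ ?_
    · filter_upwards [eventually_ge_atTop 2] with L hL
      exact ((hmeas L hL).comp (measurable_const.prodMk measurable_id)).aestronglyMeasurable
    · filter_upwards [eventually_ge_atTop 2] with L hL
      filter_upwards [ae_restrict_mem measurableSet_Ioi] with s hs
      exact hbd L hL t s ht hs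
    · exact (ff_int.const_mul _).const_mul _
    · filter_upwards [ae_restrict_mem measurableSet_Ioi] with s hs
      exact hl t s ht hs
  refine ⟨∫ t in Set.Ioi (0 : ℝ), ∫ s in Set.Ioi (0 : ℝ), l t s, ?_⟩
  have houter : Tendsto (fun L => ∫ t in Set.Ioi (0 : ℝ), ∫ s in Set.Ioi (0 : ℝ), G L t s) atTop
      (𝓝 (∫ t in Set.Ioi (0 : ℝ), ∫ s in Set.Ioi (0 : ℝ), l t s)) := by
    refine tendsto_integral_filter_of_dominated_convergence
      (fun t => KK C C0 ε * (ff t * ∫ s in Set.Ioi (0 : ℝ), ff s)) ?_ ?_ ?_ ?_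
    · filter_upwards [eventually_ge_atTop 2] with L hL
      have h1 : StronglyMeasurable (Function.uncurry (G L)) := (hmeas L hL).stronglyMeasurable
      exact (h1.integral_prod_right (ν := volume.restrict (Set.Ioi (0 : ℝ)))).aestronglyMeasurable
    · filter_upwards [eventually_ge_atTop 2] with L hL
      filter_upwards [ae_restrict_mem measurableSet_Ioi] with t ht
      have h1 : ‖∫ s in Set.Ioi (0 : ℝ), G L t s‖ ≤
          ∫ s in Set.Ioi (0 : ℝ), KK C C0 ε * (ff t * ff s) := by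
        refine norm_integral_le_of_norm_le ((ff_int.const_mul _).const_mul _) ?_
        filter_upwards [ae_restrict_mem measurableSet_Ioi] with s hs
        exact hbd L hL t s ht hs
      refine h1.trans (le_of_eq ?_)
      rw [integral_const_mul, integral_const_mul]
    · exact (ff_int.mul_const _).const_mul _
    · filter_upwards [ae_restrict_mem measurableSet_Ioi] with t ht
      exact hinner t ht
  refine houter.congr' ?_
  filter_upwards [eventually_ge_atTop 2] with L hL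
  exact (hG L hL).symm

end Pool.Agent.H231.AH
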